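import Pool.Agent.P.MP_63735c_ag.SPDefs

/-! Zero sets of holomorphic maps are null; discrete subgroups of finite covolume span. -/

open Set Filter Topology MeasureTheory

namespace Pool.Agent.NL

open Pool.Agent.SPF

variable {n : ℕ}

theorem zero_null {F : Type} [NormedAddCommGroup F] [NormedSpace ℂ F] [CompleteSpace F]
    {Ω : Set (E n)} (hΩ : IsOpen Ω) (hc : Convex ℝ Ω) {h : E n → F}
    (hd : DifferentiableOn ℂ h Ω) {a : E n} (ha : a ∈ Ω) (h0 : h a ≠ 0) :
    volume (Ω ∩ {x | h x = 0}) = 0 := by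
  set Z := Ω ∩ {x | h x = 0} with hZ
  have hZm : MeasurableSet Z := by
    have h1 : IsOpen (Ω ∩ h ⁻¹' {0}ᶜ) :=
      hd.continuousOn.isOpen_inter_preimage hΩ isOpen_compl_singleton
    have h2 : Z = Ω \ (Ω ∩ h ⁻¹' {0}ᶜ) := by
      ext x
      simp only [hZ, mem_inter_iff, mem_ofPred_eq, Set.mem_sdiff, mem_preimage, mem_compl_iff,
        mem_singleton_iff]
      tauto
    rw [h2]
    exact hΩ.measurableSet.diff h1.measurableSet
  have hS : MeasurableSet {q : E n × ℝ | a + q.2 • q.1 ∉ Z} :=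
    (hZm.preimage (f := fun q : E n × ℝ => a + q.2 • q.1) (by fun_prop)).compl
  have h1 : ∀ x : E n, ∀ᵐ t : ℝ, a + t • x ∉ Z := by
    intro x
    set l : ℂ → E n := fun τ => a + τ • x with hl
    have hld : Differentiable ℂ l := by rw [hl]; fun_prop
    have hU : IsOpen (l ⁻¹' Ω) := hΩ.preimage hld.continuous
    have hUc : Convex ℝ (l ⁻¹' Ω) := by
      intro y hy z hz u v hu hv huv
      have := hc hy hz hu hv huv
      have e : l (u • y + v • z) = u • l y + v • l z := by
        have h1 : a = u • a + v • a := by rw [← add_smul, huv, one_smul]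
        simp only [hl, add_smul, smul_add, smul_assoc]
        conv_lhs => enter [1]; rw [h1]
        abel
      show l _ ∈ Ω
      rw [e]; exact this
    have hl0 : l 0 = a := by simp [hl]
    have hm : (0 : ℂ) ∈ l ⁻¹' Ω := by simpa [hl0] using ha
    have hf : AnalyticOnNhd ℂ (h ∘ l) (l ⁻¹' Ω) :=
      (hd.comp hld.differentiableOn fun _ hx => hx).analyticOnNhd hU
    have hco := hf.preimage_zero_mem_codiscreteWithin (x := 0) (by simpa [hl0] using h0) hm
      ⟨⟨0, hm⟩, hUc.isPreconnected⟩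
    have hdis : DiscreteTopology ↑(((h ∘ l) ⁻¹' {0}ᶜ)ᶜ ∩ l ⁻¹' Ω) :=
      isDiscrete_iff_discreteTopology.mp
        (isDiscrete_of_codiscreteWithin ((compl_compl ((h ∘ l) ⁻¹' {0}ᶜ)).symm ▸ hco))
    have hcount : (((h ∘ l) ⁻¹' {0}ᶜ)ᶜ ∩ l ⁻¹' Ω).Countable :=
      TopologicalSpace.separableSpace_iff_countable.1 inferInstance
    have hc2 := (hcount.preimage Complex.ofReal_injective).measure_zero (volume : Measure ℝ)
    refine measure_mono_null (fun t ht => ?_) hc2
    have ht' : a + t • x ∈ Z := not_not.1 ht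
    have e : l (t : ℂ) = a + t • x := by simp [hl]
    exact ⟨by simpa [e] using ht'.2, by simpa [e] using ht'.1⟩
  have h2 := (Measure.ae_ae_comm (μ := (volume : Measure (E n))) (ν := (volume : Measure ℝ))
    (p := fun x t => a + t • x ∉ Z) hS).1 (ae_of_all _ h1)
  obtain ⟨t, ht, ht0⟩ := (h2.and (Measure.ae_ne volume (0 : ℝ))).exists
  have h3 : volume ((fun x : E n => t • x) ⁻¹' ((fun x => a + x) ⁻¹' Z)) = 0 := by
    have := ae_iff.1 ht
    simp only [not_not] at this
    exact this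
  rw [Measure.addHaar_preimage_smul _ ht0, measure_preimage_add] at h3
  refine (mul_eq_zero.1 h3).resolve_left ?_
  rw [ENNReal.ofReal_eq_zero, not_le]
  positivity

theorem span_of_covol (Λ : Submodule ℤ (E n)) {r : ℝ} (hr : 0 < r)
    (hΛ : ∀ v ∈ Λ, ‖v‖ < 2 * r → v = 0) {S : Set (E n)} (hfin : volume S ≠ ⊤)
    (hcov : ∀ τ, ∃ v ∈ Λ, τ - v ∈ S) : Submodule.span ℝ (Λ : Set (E n)) = ⊤ := by
  by_contra hne
  obtain ⟨f, hf0, hf⟩ := Submodule.exists_le_ker_of_lt_top _ (lt_top_iff_ne_top.2 hne)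
  have hfΛ : ∀ v ∈ Λ, f v = 0 := fun v hv => hf (Submodule.subset_span hv)
  set g : E n →L[ℝ] ℝ := LinearMap.toContinuousLinearMap f with hg
  have hgf : ∀ v, g v = f v := fun _ => rfl
  obtain ⟨u₀, hu₀⟩ : ∃ u, f u ≠ 0 := by
    by_contra hcon
    push Not at hcon
    exact hf0 (LinearMap.ext hcon)
  set c : ℝ := ‖g‖ * r + 1 with hc
  have hc0 : 0 < c := by positivity
  set u : E n := (2 * c / f u₀) • u₀ with hu
  have hfu : f u = 2 * c := by
    rw [hu, map_smul, smul_eq_mul]
    field_simp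
  have hdisc : DiscreteTopology Λ := by
    refine discreteTopology_iff_isOpen_singleton_zero.2 ⟨Metric.ball 0 (2 * r),
      Metric.isOpen_ball, ?_⟩
    ext v
    simp only [mem_preimage, mem_ball_zero_iff, mem_singleton_iff]
    exact ⟨fun h => Subtype.ext (hΛ _ v.2 h), fun h => by simpa [h] using hr⟩
  have hcount : Countable Λ := TopologicalSpace.separableSpace_iff_countable.1 inferInstance
  set S' := toMeasurable volume S with hS'
  have hS'm : MeasurableSet S' := measurableSet_toMeasurable _ _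
  set P : ℕ × Λ → Set (E n) := fun q => S' ∩ Metric.ball ((q.1 : ℝ) • u - q.2) r with hP
  have hPm : ∀ q, MeasurableSet (P q) := fun q => hS'm.inter measurableSet_ball
  have hslab : ∀ q : ℕ × Λ, ∀ y ∈ P q, |f y - q.1 * (2 * c)| < c := by
    intro q y hy
    have h1 : f (y - ((q.1 : ℝ) • u - q.2)) = f y - q.1 * (2 * c) := by
      rw [map_sub, map_sub, map_smul, hfu, hfΛ _ q.2.2, sub_zero, smul_eq_mul]
    have h2 := g.le_opNorm (y - ((q.1 : ℝ) • u - q.2))
    have h3 : ‖y - ((q.1 : ℝ) • u - q.2)‖ < r := by rw [← dist_eq_norm]; exact hy.2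
    rw [hgf, h1, Real.norm_eq_abs] at h2
    have h4 := mul_le_mul_of_nonneg_left h3.le (norm_nonneg g)
    linarith
  have hdisj : Pairwise (Function.onFun Disjoint P) := by
    rintro ⟨k, v⟩ ⟨k', v'⟩ hne
    refine Set.disjoint_left.2 fun y hy hy' => hne ?_
    have a1 := abs_lt.1 (hslab _ y hy)
    have a2 := abs_lt.1 (hslab _ y hy')
    simp only at a1 a2
    have hk : k = k' := by
      have b1 : (k : ℝ) < k' + 1 := by nlinarith
      have b2 : (k' : ℝ) < k + 1 := by nlinarith
      have b3 : k < k' + 1 := by exact_mod_cast b1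
      have b4 : k' < k + 1 := by exact_mod_cast b2
      omega
    subst hk
    have d1 : dist y ((k : ℝ) • u - v) < r := hy.2
    have d2 : dist y ((k : ℝ) • u - v') < r := hy'.2
    have d3 : dist ((k : ℝ) • u - (v : E n)) ((k : ℝ) • u - v') < 2 * r := by
      linarith [dist_triangle_left ((k : ℝ) • u - (v : E n)) ((k : ℝ) • u - v') y]
    rw [dist_sub_left, dist_eq_norm] at d3
    exact Prod.ext rfl (Subtype.ext (sub_eq_zero.1 (hΛ _ (Λ.sub_mem v.2 v'.2) d3)))
  have hlow : ∀ k : ℕ, volume (Metric.ball (0 : E n) r) ≤ ∑' v : Λ, volume (P (k, v)) := by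
    intro k
    rw [← Measure.addHaar_ball_center volume ((k : ℝ) • u) r]
    have h1 : Metric.ball ((k : ℝ) • u) r ⊆ ⋃ v : Λ, (fun y => y + -(v : E n)) ⁻¹' P (k, v) := by
      intro y hy
      obtain ⟨v, hv, hyv⟩ := hcov y
      refine mem_iUnion.2 ⟨⟨v, hv⟩, ?_, ?_⟩
      · show y + -v ∈ S'
        rw [← sub_eq_add_neg]
        exact subset_toMeasurable _ _ hyv
      · show dist (y + -v) ((k : ℝ) • u - v) < r
        rw [← sub_eq_add_neg, dist_sub_right]
        exact hy
    refine (measure_mono h1).trans ((measure_iUnion_le _).trans (le_of_eq ?_))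
    simp only [measure_preimage_add_right]
  have htot : ∑' q, volume (P q) ≤ volume S := by
    rw [← measure_iUnion hdisj hPm, ← measure_toMeasurable S]
    exact measure_mono (iUnion_subset fun q => inter_subset_left)
  rw [ENNReal.tsum_prod'] at htot
  have hinf := (ENNReal.tsum_le_tsum hlow).trans htot
  rw [ENNReal.tsum_const_eq_top_of_ne_zero (Metric.measure_ball_pos volume _ hr).ne'] at hinf
  exact hfin (top_le_iff.1 hinf)

end Pool.Agent.NL
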