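import Pool.Agent.P.MP_c4558b_ag.NLVol
import Pool.Agent.P.MP_c4558b_ag.NLZero

/-! Almost every leaf is recurrent or lies in an open set fibred by tori. -/

open Set Filter Topology MeasureTheory
open scoped ComplexOrder ContDiff Matrix ENNReal

namespace Pool.Agent.NL

open Pool.Agent.SPF

variable {N n : ℕ} {X : Type} [TopologicalSpace X] {A : Atlas X N}
  {T : Set (E n)} {Ψ : E n × E n → X}

/-- The periods of a leaf. -/
def per (Ψ : E n × E n → X) (b : E n) : Submodule ℤ (E n) :=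
  AddSubgroup.toIntSubmodule
    { carrier := {v | ∀ τ, Ψ (b, τ + v) = Ψ (b, τ)}
      zero_mem' := fun τ => by rw [add_zero]
      add_mem' := fun {u v} hu hv τ => by rw [← add_assoc, hv, hu]
      neg_mem' := fun {v} hv τ => by rw [← hv (τ + -v), neg_add_cancel_right] }

omit [TopologicalSpace X] in
lemma mem_per {b v : E n} : v ∈ per Ψ b ↔ ∀ τ, Ψ (b, τ + v) = Ψ (b, τ) := Iff.rfl

/-- The leaves that meet the transversal over `O` only once. -/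
def NR (Ψ : E n × E n → X) (O : Set (E n)) : Set (E n) :=
  {b | b ∈ O ∧ ∀ b' ∈ O, ∀ τ, Ψ (b', 0) = Ψ (b, τ) → b' = b}

lemma inj_local (hinj : ∀ i, InjOn (A.p i) (A.C i).W) (h : A.IsUnif T Ψ) (hT : IsOpen T)
    {w : E n × E n} (hw : w.1 ∈ T) : ∃ O ∈ 𝓝 w, InjOn Ψ O := by
  obtain ⟨i, e, hwe, -, -, hs⟩ := unif_local h hT hw
  refine ⟨e.source, e.open_source.mem_nhds hwe, fun s hs1 t ht he => e.injOn hs1 ht ?_⟩
  exact hinj i (hs s hs1).2.1 (hs t ht).2.1 (by rw [(hs s hs1).2.2.1, (hs t ht).2.2.1, he])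

lemma per_small (hinj : ∀ i, InjOn (A.p i) (A.C i).W) (h : A.IsUnif T Ψ) (hT : IsOpen T)
    {b : E n} (hb : b ∈ T) :
    ∃ r > 0, ∀ᶠ x in 𝓝 b, ∀ v ∈ per Ψ x, ‖v‖ < 2 * r → v = 0 := by
  obtain ⟨O, hO, hi⟩ := inj_local hinj h hT (w := (b, 0)) hb
  obtain ⟨r, hr, hB⟩ := Metric.mem_nhds_iff.1 hO
  refine ⟨r / 2, half_pos hr, ?_⟩
  filter_upwards [Metric.ball_mem_nhds b hr] with x hx v hv hn
  have hm : ∀ u : E n, ‖u‖ < r → (x, u) ∈ O := fun u hu =>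
    hB (by rw [← ball_prod_same]; exact ⟨hx, by simpa using hu⟩)
  have h1 := hi (hm (0 + v) (by rw [zero_add]; linarith)) (hm 0 (by simpa using hr)) (hv 0)
  simpa using congrArg Prod.snd h1

omit [TopologicalSpace X] in
lemma per_of_fix {χ : E n × E n → E n × E n} {s : E n × E n} {M : E n →L[ℂ] E n}
    (hd : DifferentiableAt ℂ χ s) (h4 : (fun y => (χ y).1) =ᶠ[𝓝 s] Prod.fst)
    (hM : ∀ β v, (fderiv ℂ χ s (β, 0)).1 ⬝ᵥ M v = β ⬝ᵥ v)
    (hv : ∀ v, Ψ (s.1, s.2 + v) = Ψ ((χ s).1, (χ s).2 + M v)) : s.2 - (χ s).2 ∈ per Ψ s.1 := by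
  intro ξ
  have h5 := (hd.hasFDerivAt.fst).unique (hasFDerivAt_fst.congr_of_eventuallyEq h4)
  have h6 : ∀ v, M v = v := fun v => sub_eq_zero.1 (unif_dot fun β => by
    have h7 : (fderiv ℂ χ s (β, 0)).1 = β := congrArg (fun L => L (β, 0)) h5
    have h8 := hM β v
    rw [h7] at h8
    rw [dotProduct_comm, dotProduct_sub, h8, sub_self])
  have h9 := hv (ξ - (χ s).2)
  rw [h6, show (χ s).1 = s.1 from h4.self_of_nhds, add_sub_cancel] at h9
  rw [← h9]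
  congr 2
  abel

lemma exists_red {ι : Type} [Fintype ι] {l : ι → E n} (h : Submodule.span ℝ (range l) = ⊤)
    {Λ : Submodule ℤ (E n)} (hp : ∀ v, l v ∈ Λ) {a : ι → ℝ} (ha : ∀ v, ‖l v‖ ≤ a v) (τ : E n) :
    ∃ u ∈ Λ, τ - u ∈ Metric.closedBall (0 : E n) (∑ v, a v) := by
  obtain ⟨c, hc⟩ := (Submodule.mem_span_range_iff_exists_fun ℝ).1 (h ▸ Submodule.mem_top (x := τ))
  refine ⟨∑ v, ⌊c v⌋ • l v, Submodule.sum_mem _ fun v _ => Submodule.smul_mem _ _ (hp v), ?_⟩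
  rw [← hc, ← Finset.sum_sub_distrib, mem_closedBall_zero_iff]
  refine (norm_sum_le _ _).trans (Finset.sum_le_sum fun v _ => ?_)
  rw [← Int.cast_smul_eq_zsmul ℝ, ← sub_smul, norm_smul, Int.self_sub_floor,
    Real.norm_of_nonneg (Int.fract_nonneg _)]
  exact (mul_le_of_le_one_left (norm_nonneg _) (Int.fract_lt_one _).le).trans (ha v)

lemma disc_of_small {Λ : Submodule ℤ (E n)} {r : ℝ} (hr : 0 < r)
    (h : ∀ v ∈ Λ, ‖v‖ < 2 * r → v = 0) : DiscreteTopology Λ := by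
  refine discreteTopology_of_isOpen_singleton_zero ?_
  have : ({0} : Set Λ) = Subtype.val ⁻¹' Metric.ball 0 (2 * r) := by
    ext v
    refine ⟨fun hv => by simp [mem_singleton_iff.1 hv, hr], fun hv => ?_⟩
    exact Subtype.ext (h v v.2 (by simpa using hv))
  rw [this]
  exact Metric.isOpen_ball.preimage continuous_subtype_val

variable [T2Space X]

lemma same_leaf (h : A.IsUnif T Ψ) (hT : IsOpen T) {w w' : E n × E n} (hw : w.1 ∈ T)
    (hw' : w'.1 ∈ T) (he : Ψ w = Ψ w') : ∃ τ, Ψ (w'.1, 0) = Ψ (w.1, τ) := by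
  obtain ⟨χ, V, -, hwV, hχ, -, hs⟩ := holonomy h hT hw hw' he
  obtain ⟨-, -, -, M, hM, hv, -⟩ := hs w hwV
  obtain ⟨v, hv'⟩ := (pair_surj (D := (ContinuousLinearMap.fst ℂ (E n) (E n)).comp
    ((fderiv ℂ χ w).comp (ContinuousLinearMap.inl ℂ (E n) (E n)))) hM).2 (-w'.2)
  exact ⟨w.2 + v, by rw [hv, hχ, hv', add_neg_cancel]⟩

lemma NR_meas (h : A.IsUnif T Ψ) (hT : IsOpen T) {O : Set (E n)} (hO : IsOpen O) (hOT : O ⊆ T) :
    MeasurableSet (NR Ψ O) := by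
  have h1 : IsOpen (O \ NR Ψ O) := by
    refine isOpen_iff_mem_nhds.2 fun b ⟨hb, hn⟩ => ?_
    have h2 : ∃ b' ∈ O, ∃ τ, Ψ (b', 0) = Ψ (b, τ) ∧ b' ≠ b := by
      by_contra hc
      exact hn ⟨hb, fun b' hb' τ he => by_contra fun hne => hc ⟨b', hb', τ, he, hne⟩⟩
    obtain ⟨b', hb', τ, he, hne⟩ := h2
    obtain ⟨χ, V, hV, hwV, hχ, hd, hs⟩ :=
      holonomy h hT (w := (b, τ)) (w' := (b', 0)) (hOT hb) (hOT hb') he.symm
    have c0 : ContinuousAt (fun x : E n => ((x, τ) : E n × E n)) b := by fun_prop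
    have c1 : ContinuousAt (fun x : E n => (χ (x, τ)).1) b :=
      (ContinuousAt.comp (f := fun x : E n => ((x, τ) : E n × E n))
        (hd.differentiableAt (hV.mem_nhds hwV)).continuousAt c0).fst
    have e1 : (χ (b, τ)).1 = b' := by rw [hχ]
    filter_upwards [hO.mem_nhds hb, c0.eventually (hV.mem_nhds hwV),
      c1.eventually (hO.mem_nhds (by simpa only [e1] using hb')),
      (c1.sub continuousAt_id).eventually_ne (y := 0) (by simpa [e1, sub_eq_zero] using hne)]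
      with x hx hxV hxO hxn
    refine ⟨hx, fun hN => hxn ?_⟩
    obtain ⟨τ', hτ'⟩ := same_leaf h hT (hs _ hxV).1 (hs _ hxV).2.1 (hs _ hxV).2.2.1.symm
    exact sub_eq_zero.2 (hN.2 _ hxO τ' hτ')
  have h2 : NR Ψ O = O \ (O \ NR Ψ O) := by
    rw [Set.sdiff_sdiff_right_self, inter_eq_right.2 fun _ hb => hb.1]
  rw [h2]
  exact hO.measurableSet.diff h1.measurableSet

lemma good_hol (h : A.IsUnif T Ψ) (hT : IsOpen T) {O : Set (E n)} (hO : IsOpen O) (hOT : O ⊆ T)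
    {b : E n} (hb : b ∈ O) (hg : ∀ U ∈ 𝓝 b, volume (NR Ψ O ∩ U) ≠ 0) {τ τ' : E n}
    (he : Ψ (b, τ) = Ψ (b, τ')) :
    ∃ χ : E n × E n → E n × E n, ContinuousAt χ (b, τ) ∧ χ (b, τ) = (b, τ') ∧
      ∀ᶠ s in 𝓝 (b, τ), (χ s).1 = s.1 ∧ Ψ (χ s) = Ψ s ∧ s.2 - (χ s).2 ∈ per Ψ s.1 := by
  obtain ⟨χ, V, hV, hwV, hχ, hd, hs⟩ :=
    holonomy h hT (w := (b, τ)) (w' := (b, τ')) (hOT hb) (hOT hb) he
  have c1 : ContinuousAt χ (b, τ) := (hd.differentiableAt (hV.mem_nhds hwV)).continuousAt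
  refine ⟨χ, c1, hχ, ?_⟩
  have e1 : (χ (b, τ)).1 = b := by rw [hχ]
  have h1 : ∀ᶠ s in 𝓝 (b, τ), s ∈ V ∧ (χ s).1 ∈ O ∧ s.1 ∈ O := by
    filter_upwards [hV.mem_nhds hwV, c1.fst.eventually (hO.mem_nhds (by simpa only [e1] using hb)),
      continuous_fst.continuousAt.eventually (hO.mem_nhds (x := ((b, τ) : E n × E n).1) hb)]
      with s h1 h2 h3 using ⟨h1, h2, h3⟩
  obtain ⟨r, hr, hB⟩ := Metric.mem_nhds_iff.1 h1
  have hm : ∀ x ∈ Metric.ball b r, ∀ ξ ∈ Metric.ball τ r,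
      (x, ξ) ∈ V ∧ (χ (x, ξ)).1 ∈ O ∧ x ∈ O := fun x hx ξ hξ =>
    hB (by rw [← ball_prod_same]; exact ⟨hx, hξ⟩)
  have h2 : ∀ s ∈ Metric.ball (b, τ) r, (χ s).1 = s.1 := by
    rintro ⟨x, ξ⟩ hx
    rw [← ball_prod_same] at hx
    by_contra hne
    have hd' : DifferentiableOn ℂ (fun y => (χ (y, ξ)).1 - y) (Metric.ball b r) :=
      (hd.comp (f := fun y : E n => ((y, ξ) : E n × E n)) (by fun_prop)
        fun y hy => (hm y hy ξ hx.2).1).fst.sub differentiableOn_id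
    refine hg _ (Metric.ball_mem_nhds b hr) (measure_mono_null ?_
      (zero_null Metric.isOpen_ball (convex_ball b r) hd' hx.1 (sub_ne_zero.2 hne)))
    rintro y ⟨hy, hy'⟩
    obtain ⟨m1, m2, -⟩ := hm y hy' ξ hx.2
    obtain ⟨τ', hτ'⟩ := same_leaf h hT (hs _ m1).1 (hs _ m1).2.1 (hs _ m1).2.2.1.symm
    exact ⟨hy', sub_eq_zero.2 (hy.2 _ m2 τ' hτ')⟩
  filter_upwards [Metric.ball_mem_nhds (b, τ) hr] with s hsB
  have m1 : s ∈ V := (hB hsB).1
  obtain ⟨-, -, h3, M, hM, hv, -⟩ := hs s m1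
  exact ⟨h2 s hsB, h3, per_of_fix (hd.differentiableAt (hV.mem_nhds m1))
    (Filter.mem_of_superset (Metric.isOpen_ball.mem_nhds hsB) h2) hM hv⟩

lemma good_fibred (hinj : ∀ i, InjOn (A.p i) (A.C i).W) (h : A.IsUnif T Ψ) (hT : IsOpen T)
    {O : Set (E n)} (hO : IsOpen O) (hOT : O ⊆ T) {b : E n} (hb : b ∈ NR Ψ O)
    (hg : ∀ U ∈ 𝓝 b, volume (NR Ψ O ∩ U) ≠ 0)
    (hsp : Submodule.span ℝ (per Ψ b : Set (E n)) = ⊤) : ∃ T' ∈ 𝓝 b, IsFibred Ψ T' := by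
  obtain ⟨t, ht, hts, hli⟩ := exists_linearIndependent ℝ (per Ψ b : Set (E n))
  have : Finite t := hli.finite
  have : Fintype t := Fintype.ofFinite t
  have hcard : Fintype.card t = Module.finrank ℝ (E n) := by
    rw [← finrank_span_eq_card hli, Subtype.range_coe, hts, hsp, finrank_top]
  have h1 : ∀ v : t, ∃ l : E n → E n, ContinuousAt l b ∧ l b = v ∧ ∀ᶠ x in 𝓝 b, l x ∈ per Ψ x := by
    intro v
    obtain ⟨χ, c, e, hs⟩ := good_hol h hT hO hOT hb.1 hg (τ := v) (τ' := 0)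
      (by simpa using ht v.2 0)
    have c0 : ContinuousAt (fun x : E n => ((x, v) : E n × E n)) b := by fun_prop
    refine ⟨fun x => v - (χ (x, v)).2, continuousAt_const.sub
      (ContinuousAt.comp (f := fun x : E n => ((x, v) : E n × E n)) c c0).snd, by simp [e], ?_⟩
    filter_upwards [c0.eventually hs] with x hx using hx.2.2
  choose l lc lb lp using h1
  have h2 : Tendsto (fun x v => l v x) (𝓝 b) (𝓝 fun v : t => (v : E n)) :=
    tendsto_pi_nhds.2 fun v => lb v ▸ lc v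
  set ρ : ℝ := ∑ v : t, (‖(v : E n)‖ + 1) with hρ
  have h3 : ∀ᶠ x in 𝓝 b, Submodule.span ℝ (per Ψ x : Set (E n)) = ⊤ ∧
      ∀ τ, ∃ u ∈ per Ψ x, τ - u ∈ Metric.closedBall (0 : E n) ρ := by
    filter_upwards [h2.eventually hli.eventually, eventually_all.2 lp, eventually_all.2 fun v =>
      (lc v).norm.eventually (gt_mem_nhds (a := ‖(v : E n)‖ + 1) (by simp [lb]))]
      with x hx hp hn
    have h4 := hx.span_eq_top_of_card_eq_finrank' hcard
    exact ⟨eq_top_iff.2 (h4 ▸ Submodule.span_mono (range_subset_iff.2 hp)),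
      exists_red h4 hp fun v => (hn v).le⟩
  have h5 : ∀ᶠ x in 𝓝 (b, b), ∀ y ∈ Metric.closedBall (0 : E n) ρ ×ˢ Metric.closedBall (0 : E n) ρ,
      Ψ (x.1, y.1) = Ψ (x.2, y.2) → x.1 = x.2 ∧ y.1 - y.2 ∈ per Ψ x.1 := by
    refine ((isCompact_closedBall _ _).prod (isCompact_closedBall _ _)
      ).eventually_forall_of_forall_eventually fun y _ => ?_
    have c1 : ContinuousAt (fun z : (E n × E n) × E n × E n => (z.1.1, z.2.1)) ((b, b), y) := by
      fun_prop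
    have c2 : ContinuousAt (fun z : (E n × E n) × E n × E n => (z.1.2, z.2.2)) ((b, b), y) := by
      fun_prop
    by_cases he : Ψ (b, y.1) = Ψ (b, y.2)
    · obtain ⟨χ, c, e, hs⟩ := good_hol h hT hO hOT hb.1 hg he
      obtain ⟨Q, hQ, hi⟩ := inj_local hinj h hT (w := (b, y.2)) (hOT hb.1)
      filter_upwards [c1.eventually hs, c1.eventually (c.eventually (e ▸ hQ)), c2.eventually hQ]
        with z h1 h2 h3 h4
      have h6 := hi h2 h3 (h1.2.1.trans h4)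
      exact ⟨h1.1.symm.trans (congrArg Prod.fst h6), by simpa [h6] using h1.2.2⟩
    · obtain ⟨U, V, hU, hV, m1, m2, hUV⟩ := t2_separation he
      filter_upwards [c1.eventually ((unif_cont h (w := (b, y.1)) (hOT hb.1)).eventually
        (hU.mem_nhds m1)), c2.eventually ((unif_cont h (w := (b, y.2)) (hOT hb.1)).eventually
        (hV.mem_nhds m2))] with z h1 h2 h3
      exact (Set.disjoint_left.1 hUV h1 (h3 ▸ h2)).elim
  obtain ⟨r, hr, h6⟩ := per_small hinj h hT (hOT hb.1)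
  rw [nhds_prod_eq] at h5
  obtain ⟨U, hU, h7⟩ := Filter.mem_prod_self_iff.1 h5
  refine ⟨_, inter_mem hU (h3.and h6), fun x hx => ⟨per Ψ x, ?_, hx.2.1.1, fun x' hx' τ τ' =>
    ⟨fun he => ?_, ?_⟩⟩⟩
  · exact disc_of_small hr hx.2.2
  · obtain ⟨u, hu, hu'⟩ := hx.2.1.2 τ
    obtain ⟨u', hv, hv'⟩ := hx'.2.1.2 τ'
    have h8 := h7 (mk_mem_prod hx.1 hx'.1) (τ - u, τ' - u') ⟨hu', hv'⟩
      (by rw [← hu (τ - u), ← hv (τ' - u'), sub_add_cancel, sub_add_cancel, he])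
    obtain ⟨h9, h10⟩ := h8
    obtain rfl : x = x' := h9
    refine ⟨rfl, ?_⟩
    have h11 : τ - τ' = (τ - u - (τ' - u')) + u - u' := by abel
    rw [h11]
    exact sub_mem (add_mem h10 hu) hv
  · rintro ⟨rfl, hu⟩
    rw [← hu τ', add_sub_cancel]

/-- Almost every leaf has trivial holonomy. -/
lemma hol_trivial (hinj : ∀ i, InjOn (A.p i) (A.C i).W) (h : A.IsUnif T Ψ) (hT : IsOpen T) :
    ∀ᵐ b, b ∈ T → ∀ τ τ', Ψ (b, τ) = Ψ (b, τ') → τ - τ' ∈ per Ψ b := by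
  set P : Set (E n × E n × E n) :=
    {y | y.1 ∈ T ∧ Ψ (y.1, y.2.1) = Ψ (y.1, y.2.2) ∧ y.2.1 - y.2.2 ∉ per Ψ y.1} with hP
  have h1 : ∀ y ∈ P, ∃ u ∈ 𝓝[P] y, volume (Prod.fst '' u) = 0 := by
    rintro ⟨b, τ, τ'⟩ ⟨hb, he, hn⟩
    obtain ⟨χ, V, hV, hwV, hχ, hd, hs⟩ := holonomy h hT (w := (b, τ)) (w' := (b, τ')) hb hb he
    obtain ⟨Q, hQ, hi⟩ := inj_local hinj h hT (w := (b, τ')) hb
    have c : ContinuousAt χ (b, τ) := (hd.differentiableAt (hV.mem_nhds hwV)).continuousAt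
    obtain ⟨r, hr, hB⟩ := Metric.mem_nhds_iff.1
      (inter_mem (hV.mem_nhds hwV) (c.preimage_mem_nhds (hχ ▸ hQ)))
    have hm : ∀ x ∈ Metric.ball b r, ∀ ξ ∈ Metric.ball τ r, (x, ξ) ∈ V ∧ χ (x, ξ) ∈ Q :=
      fun x hx ξ hξ => hB (by rw [← ball_prod_same]; exact ⟨hx, hξ⟩)
    have hR : ∀ x ξ, (x, ξ) ∈ V → HasFDerivAt (fun ξ => χ (x, ξ))
        ((fderiv ℂ χ (x, ξ)).comp (ContinuousLinearMap.inr ℂ (E n) (E n))) ξ := fun x ξ hx =>
      (hd.differentiableAt (hV.mem_nhds hx)).hasFDerivAt.comp ξ (hasFDerivAt_prodMk_right x ξ)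
    have c1 : ∀ x ∈ Metric.ball b r, ∀ ξ ∈ Metric.ball τ r, (χ (x, ξ)).1 = (χ (x, τ)).1 := by
      intro x hx ξ hξ
      refine Metric.isOpen_ball.is_const_of_fderiv_eq_zero (𝕜 := ℂ)
        (f := fun ξ => (χ (x, ξ)).1) (convex_ball τ r).isPreconnected
        (fun y hy => (hR x y (hm x hx y hy).1).fst.differentiableAt.differentiableWithinAt)
        (fun y hy => ?_) hξ (Metric.mem_ball_self hr)
      rw [(hR x y (hm x hx y hy).1).fst.fderiv]
      ext1 v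
      obtain ⟨-, -, -, M, -, -, h3⟩ := hs _ (hm x hx y hy).1
      exact h3 v
    have h2 : ∃ a ∈ Metric.ball b r, (χ (a, τ)).1 - a ≠ 0 := by
      by_contra hc
      obtain ⟨-, -, -, M, hM, hv, -⟩ := hs _ hwV
      have h3 := per_of_fix (hd.differentiableAt (hV.mem_nhds hwV)) ?_ hM hv
      · rw [hχ] at h3
        exact hn h3
      filter_upwards [Metric.ball_mem_nhds (b, τ) hr] with s hsB
      rw [← ball_prod_same] at hsB
      rw [c1 s.1 hsB.1 s.2 hsB.2]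
      exact by_contra fun hne => hc ⟨s.1, hsB.1, sub_ne_zero.2 hne⟩
    obtain ⟨a, ha, hne⟩ := h2
    have hd' : DifferentiableOn ℂ (fun y => (χ (y, τ)).1 - y) (Metric.ball b r) :=
      (hd.comp (f := fun y : E n => ((y, τ) : E n × E n)) (by fun_prop)
        fun y hy => (hm y hy τ (Metric.mem_ball_self hr)).1).fst.sub differentiableOn_id
    have c2 : ContinuousAt (fun z : E n × E n × E n => (z.1, z.2.1)) (b, τ, τ') := by fun_prop
    have c3 : ContinuousAt (fun z : E n × E n × E n => (z.1, z.2.2)) (b, τ, τ') := by fun_prop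
    refine ⟨_, inter_mem_nhdsWithin _ (inter_mem
      (c2.preimage_mem_nhds (Metric.ball_mem_nhds (b, τ) hr)) (c3.preimage_mem_nhds hQ)),
      measure_mono_null ?_ (zero_null Metric.isOpen_ball (convex_ball b r) hd' ha hne)⟩
    rintro _ ⟨⟨x, ξ, ξ'⟩, ⟨h3, h4, h5⟩, rfl⟩
    rw [mem_preimage, ← ball_prod_same] at h4
    have h6 := hi (hm x h4.1 ξ h4.2).2 h5 ((hs _ (hm x h4.1 ξ h4.2).1).2.2.1.trans h3.2.1)
    exact ⟨h4.1, sub_eq_zero.2 ((c1 x h4.1 ξ h4.2).symm.trans (congrArg Prod.fst h6))⟩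
  choose! u hu h0 using h1
  obtain ⟨t, ht, hc, hcov⟩ := TopologicalSpace.countable_cover_nhdsWithin hu
  have h2 : volume (Prod.fst '' P) = 0 := by
    refine measure_mono_null (image_mono hcov) ?_
    rw [image_iUnion₂]
    exact (measure_biUnion_null_iff hc).2 fun y hy => h0 y (ht hy)
  filter_upwards [measure_eq_zero_iff_ae_notMem.1 h2] with b hb hbT τ τ' he
  exact by_contra fun hn => hb ⟨(b, τ, τ'), ⟨hbT, he, hn⟩, rfl⟩

/-- A compact leaf is not recurrent. -/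
lemma not_recurrent (hinj : ∀ i, InjOn (A.p i) (A.C i).W) (h : A.IsUnif T Ψ) (hT : IsOpen T)
    {b : E n} (hb : b ∈ T) (h1 : ∀ τ τ', Ψ (b, τ) = Ψ (b, τ') → τ - τ' ∈ per Ψ b)
    (hsp : Submodule.span ℝ (per Ψ b : Set (E n)) = ⊤) : ¬ Recurrent Ψ b := by
  obtain ⟨t, ht, hts, hli⟩ := exists_linearIndependent ℝ (per Ψ b : Set (E n))
  have : Finite t := hli.finite
  have : Fintype t := Fintype.ofFinite t
  have h2 := exists_red (l := fun v : t => (v : E n)) (by rw [Subtype.range_coe, hts, hsp])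
    (fun v => ht v.2) fun v => le_rfl
  have h3 : ∀ᶠ x in 𝓝 b, ∀ ξ ∈ Metric.closedBall (0 : E n) (∑ v : t, ‖(v : E n)‖),
      Ψ (x, 0) = Ψ (b, ξ) → x = b := by
    refine (isCompact_closedBall _ _).eventually_forall_of_forall_eventually fun y _ => ?_
    have c1 : ContinuousAt (fun z : E n × E n => (z.1, (0 : E n))) (b, y) := by fun_prop
    by_cases he : Ψ (b, y) = Ψ (b, 0)
    · obtain ⟨Q, hQ, hi⟩ := inj_local hinj h hT (w := (b, 0)) hb
      have c2 : ContinuousAt (fun z : E n × E n => (b, z.2 - y)) (b, y) := by fun_prop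
      filter_upwards [c1.eventually hQ, c2.preimage_mem_nhds (t := Q) (by simpa using hQ)]
        with z h4 h5 h6
      have h7 := h1 _ _ he (z.2 - y)
      rw [sub_zero, sub_add_cancel] at h7
      exact congrArg Prod.fst (hi h4 h5 (h6.trans h7))
    · obtain ⟨U, V, hU, hV, m1, m2, hUV⟩ := t2_separation he
      have c2 : ContinuousAt (fun z : E n × E n => (b, z.2)) (b, y) := by fun_prop
      filter_upwards [c2.eventually ((unif_cont h (w := (b, y)) hb).eventually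
        (hU.mem_nhds m1)), c1.eventually ((unif_cont h (w := (b, 0)) hb).eventually
        (hV.mem_nhds m2))] with z h4 h5 h6
      exact (Set.disjoint_left.1 hUV h4 (h6 ▸ h5)).elim
  rw [Recurrent, not_frequently, eventually_nhdsWithin_iff]
  filter_upwards [h3] with x hx hne
  rintro ⟨τ, he⟩
  obtain ⟨u, hu, hu'⟩ := h2 τ
  exact hne (hx _ hu' (by rw [← hu (τ - u), sub_add_cancel, he]))

variable [MeasurableSpace X] [BorelSpace X] {μ : Measure X} [IsFiniteMeasure μ]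

lemma NR_ae (hN : N = 2 * n) (hinj : ∀ i, InjOn (A.p i) (A.C i).W) (hμ : IsVolume A μ)
    (h : A.IsUnif T Ψ) (hT : IsOpen T) {O : Set (E n)} (hO : IsOpen O) (hOT : O ⊆ T) :
    ∀ᵐ b, b ∈ NR Ψ O → ∃ T' ∈ 𝓝 b, IsFibred Ψ T' := by
  obtain ⟨S, hSR, hS, hfin, hcov⟩ := exists_fund hN hinj hμ h hT
    ((NR_meas h hT hO hOT).prod (MeasurableSet.univ (α := E n))) fun w hw => hOT hw.1.1
  have h1 : volume {b | b ∈ NR Ψ O ∧ ∃ U ∈ 𝓝 b, volume (NR Ψ O ∩ U) = 0} = 0 :=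
    measure_null_of_locally_null _ fun b ⟨_, U, hU, h0⟩ =>
      ⟨NR Ψ O ∩ U, mem_of_superset (inter_mem_nhdsWithin _ hU) fun x hx => ⟨hx.1.1, hx.2⟩, h0⟩
  filter_upwards [Measure.ae_measure_lt_top hS hfin, measure_eq_zero_iff_ae_notMem.1 h1]
    with b h2 h3 hb
  have hg : ∀ U ∈ 𝓝 b, volume (NR Ψ O ∩ U) ≠ 0 := fun U hU h0 => h3 ⟨hb, U, hU, h0⟩
  obtain ⟨r, hr, h6⟩ := per_small hinj h hT (hOT hb.1)
  refine good_fibred hinj h hT hO hOT hb hg (span_of_covol _ hr h6.self_of_nhds h2.ne fun τ => ?_)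
  obtain ⟨⟨b', τ'⟩, hw, he⟩ := hcov (b, τ) ⟨hb, mem_univ _⟩
  obtain ⟨ξ, hξ⟩ := same_leaf h hT (w := (b, τ)) (w' := (b', τ')) (hOT hb.1)
    (hOT (hSR hw).1.1) he.symm
  obtain rfl : b' = b := hb.2 _ (hSR hw).1.1 ξ hξ
  obtain ⟨χ, -, e, hs⟩ := good_hol h hT hO hOT hb.1 hg he.symm
  refine ⟨τ - τ', by simpa [e] using hs.self_of_nhds.2.2, by simpa using hw⟩

theorem dichotomy (hN : N = 2 * n) (hinj : ∀ i, InjOn (A.p i) (A.C i).W) (hμ : IsVolume A μ)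
    (h : A.IsUnif T Ψ) (hT : IsOpen T) :
    ∀ᵐ b ∂volume.restrict T, Recurrent Ψ b ∨ ∃ T' ∈ 𝓝 b, IsFibred Ψ T' := by
  rw [ae_restrict_iff' hT.measurableSet]
  have h1 : ∀ᵐ b, ∀ O ∈ TopologicalSpace.countableBasis (E n), O ⊆ T → b ∈ NR Ψ O →
      ∃ T' ∈ 𝓝 b, IsFibred Ψ T' := by
    refine (ae_ball_iff (TopologicalSpace.countable_countableBasis _)).2 fun O hO => ?_
    by_cases hOT : O ⊆ T
    · filter_upwards [NR_ae hN hinj hμ h hT
        (TopologicalSpace.isOpen_of_mem_countableBasis hO) hOT] with b hb _ using hb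
    · exact Eventually.of_forall fun b hc => (hOT hc).elim
  filter_upwards [h1] with b hb hbT
  refine or_iff_not_imp_left.2 fun hn => ?_
  rw [Recurrent, not_frequently, eventually_nhdsWithin_iff] at hn
  obtain ⟨O, hO, hbO, hs⟩ := (TopologicalSpace.isBasis_countableBasis (E n)).mem_nhds_iff.1
    (inter_mem (hT.mem_nhds hbT) hn)
  exact hb O hO (fun x hx => (hs hx).1)
    ⟨hbO, fun b' hb' τ he => by_contra fun hne => (hs hb').2 hne ⟨τ, he⟩⟩

theorem dichotomy_sharp (hN : N = 2 * n) (hinj : ∀ i, InjOn (A.p i) (A.C i).W)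
    (hμ : IsVolume A μ) (h : A.IsUnif T Ψ) (hT : IsOpen T) :
    ∀ᵐ b ∂volume.restrict T, (∃ T' ∈ 𝓝 b, IsFibred Ψ T') ∨ (Recurrent Ψ b ∧
      ∃ Λ : Submodule ℤ (E n), DiscreteTopology Λ ∧ Submodule.span ℝ (Λ : Set (E n)) ≠ ⊤ ∧
        ∀ τ τ', Ψ (b, τ) = Ψ (b, τ') ↔ τ - τ' ∈ Λ) := by
  filter_upwards [dichotomy hN hinj hμ h hT, ae_restrict_of_ae (hol_trivial hinj h hT),
    ae_restrict_mem hT.measurableSet] with b h1 h2 hb
  refine h1.symm.imp id fun hR => ⟨hR, per Ψ b, ?_,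
    fun hsp => not_recurrent hinj h hT hb (h2 hb) hsp hR, fun τ τ' => ⟨h2 hb τ τ', fun hu => ?_⟩⟩
  · obtain ⟨r, hr, h6⟩ := per_small hinj h hT hb
    exact disc_of_small hr h6.self_of_nhds
  · rw [← hu τ', add_sub_cancel]

end Pool.Agent.NL
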