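import Pool.Agent.P.MP_63735c_ag.SPDefs

/-! The volume measure, recurrent leaves and torus fibred sets of leaves. -/

open MeasureTheory Filter Topology

namespace Pool.Agent.NL

open Pool.Agent.SPF

variable {N n : ℕ} {X : Type} [TopologicalSpace X]

/-- `μ` is the measure of the volume form `σ^n σbar^n`: density `|det σ|` in each chart. -/
def IsVolume [MeasurableSpace X] (A : Atlas X N) (μ : Measure X) : Prop :=
  ∀ i, ∀ S ⊆ (A.C i).W, MeasurableSet S → μ (A.p i '' S) = ∫⁻ z in S, ‖((A.C i).σ z).det‖ₑ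

/-- The leaf of `b` comes back to the transversal arbitrarily close to `b`. -/
def Recurrent (Ψ : E n × E n → X) (b : E n) : Prop :=
  ∃ᶠ b' in 𝓝[≠] b, ∃ τ, Ψ (b', 0) = Ψ (b, τ)

/-- Over `T` the leaves are pairwise disjoint compact complex tori. -/
def IsFibred (Ψ : E n × E n → X) (T : Set (E n)) : Prop :=
  ∀ b ∈ T, ∃ Λ : Submodule ℤ (E n), DiscreteTopology Λ ∧ Submodule.span ℝ (Λ : Set (E n)) = ⊤ ∧
    ∀ b' ∈ T, ∀ τ τ', Ψ (b, τ) = Ψ (b', τ') ↔ b = b' ∧ τ - τ' ∈ Λ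

end Pool.Agent.NL
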