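import Pool.Agent.P.MP_c4558b_ag.NLHol

/-! The uniformizing map preserves the volume up to a constant. -/

open Set Filter Topology MeasureTheory
open scoped ComplexOrder ContDiff Matrix ENNReal

namespace Pool.Agent.NL

open Pool.Agent.SPF

variable {N n : ℕ} {X : Type} [TopologicalSpace X] {A : Atlas X N}
  {T : Set (E n)} {Ψ : E n × E n → X}

/-- Splitting of the coordinates. -/
noncomputable def kap (ε : Fin n ⊕ Fin n ≃ Fin N) : E N ≃L[ℂ] E n × E n :=
  ((LinearEquiv.funCongrLeft ℂ ℂ ε).trans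
    (LinearEquiv.sumArrowLequivProdArrow _ _ ℂ ℂ)).toContinuousLinearEquiv

lemma kap_inl (ε : Fin n ⊕ Fin n ≃ Fin N) (a : Fin n) :
    kap ε (Pi.single (ε (Sum.inl a)) 1) = (Pi.single a 1, 0) := by
  refine Prod.ext (funext fun b => ?_) (funext fun b => ?_)
  · show (Pi.single (ε (Sum.inl a)) 1 : E N) (ε (Sum.inl b)) = (Pi.single a 1 : E n) b
    simp [Pi.single_apply]
  · show (Pi.single (ε (Sum.inl a)) 1 : E N) (ε (Sum.inr b)) = 0
    simp

lemma kap_inr (ε : Fin n ⊕ Fin n ≃ Fin N) (a : Fin n) :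
    kap ε (Pi.single (ε (Sum.inr a)) 1) = (0, Pi.single a 1) := by
  refine Prod.ext (funext fun b => ?_) (funext fun b => ?_)
  · show (Pi.single (ε (Sum.inr a)) 1 : E N) (ε (Sum.inl b)) = 0
    simp
  · show (Pi.single (ε (Sum.inr a)) 1 : E N) (ε (Sum.inr b)) = (Pi.single a 1 : E n) b
    simp [Pi.single_apply]

lemma vol_det (ε : Fin n ⊕ Fin n ≃ Fin N) (D : E n × E n →L[ℂ] E N)
    {S : Matrix (Fin N) (Fin N) ℂ} (hS : Sᵀ = -S)
    (h : ∀ β τ τ', D (β, τ) ⬝ᵥ S *ᵥ D (0, τ') = β ⬝ᵥ τ') :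
    |((D.comp (kap ε : E N →L[ℂ] E n × E n)).restrictScalars ℝ).det| * ‖S.det‖ = 1 := by
  set L : E N →ₗ[ℂ] E N := (D.comp (kap ε : E N →L[ℂ] E n × E n)).toLinearMap with hL
  set J := LinearMap.toMatrix' L with hJ
  have hG : ∀ a b, (Jᵀ * S * J) a b =
      D (kap ε (Pi.single a 1)) ⬝ᵥ S *ᵥ D (kap ε (Pi.single b 1)) := by
    intro a b
    rw [Matrix.mul_assoc, Matrix.mul_apply]
    rfl
  have skew : ∀ u v : E N, u ⬝ᵥ S *ᵥ v = -(v ⬝ᵥ S *ᵥ u) := by
    intro u v
    rw [Matrix.dotProduct_mulVec, ← Matrix.mulVec_transpose, hS, Matrix.neg_mulVec,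
      neg_dotProduct, dotProduct_comm]
  set G := (Jᵀ * S * J).submatrix ε ε with hGd
  have hB : G = Matrix.fromBlocks G.toBlocks₁₁ 1 (-1) 0 := by
    ext a b
    rcases a with a | a <;> rcases b with b | b
    · rfl
    · rw [hGd, Matrix.submatrix_apply, hG, kap_inl, kap_inr, h]
      simp [Matrix.one_apply, Pi.single_apply, eq_comm]
    · rw [hGd, Matrix.submatrix_apply, hG, kap_inl, kap_inr, skew, h]
      simp [Matrix.one_apply, Pi.single_apply]
    · rw [hGd, Matrix.submatrix_apply, hG, kap_inr, kap_inr, h]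
      simp
  have h1 : G.det * (Matrix.J (Fin n) ℂ).det = 1 := by
    rw [← Matrix.det_mul, hB, Matrix.J, Matrix.fromBlocks_multiply]
    simp
  have h2 : ‖(Matrix.J (Fin n) ℂ).det‖ = 1 := by
    have := congrArg norm (Matrix.J_det_mul_J_det (Fin n) ℂ)
    rw [norm_mul, norm_one] at this
    nlinarith [norm_nonneg (Matrix.J (Fin n) ℂ).det]
  have h3 : ‖G.det‖ = 1 := by
    have := congrArg norm h1
    rwa [norm_mul, h2, mul_one, norm_one] at this
  rw [hGd, Matrix.det_submatrix_equiv_self, Matrix.det_mul, Matrix.det_mul, Matrix.det_transpose,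
    norm_mul, norm_mul] at h3
  have h4 : ((D.comp (kap ε : E N →L[ℂ] E n × E n)).restrictScalars ℝ).det =
      Complex.normSq J.det := by
    rw [hJ, LinearMap.det_toMatrix', ← Algebra.norm_complex_apply,
      ← LinearMap.det_restrictScalars]
    rfl
  rw [h4, abs_of_nonneg (Complex.normSq_nonneg _), Complex.normSq_eq_norm_sq]
  linarith

variable [MeasurableSpace X] [BorelSpace X] {μ : Measure X}

omit [BorelSpace X] in
lemma vol_local (hN : N = 2 * n) (hinj : ∀ i, InjOn (A.p i) (A.C i).W) (hμ : IsVolume A μ)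
    (h : A.IsUnif T Ψ) (hT : IsOpen T) :
    ∃ c : ℝ≥0∞, c ≠ ⊤ ∧ ∀ w : E n × E n, w.1 ∈ T → ∃ O, IsOpen O ∧ w ∈ O ∧ InjOn Ψ O ∧
      (∀ s ∈ O, s.1 ∈ T) ∧ ∀ S ⊆ O, MeasurableSet S → volume S = c * μ (Ψ '' S) := by
  let ε : Fin n ⊕ Fin n ≃ Fin N := finSumFinEquiv.trans (finCongr (by omega))
  let κ := kap ε
  have i0 : (volume : Measure (E n × E n)).IsAddHaarMeasure :=
    Measure.prod.instIsAddHaarMeasure volume volume
  have i1 : ((volume : Measure (E n × E n)).map κ.symm).IsAddHaarMeasure :=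
    κ.symm.isAddHaarMeasure_map _
  have hH := Measure.isAddLeftInvariant_eq_smul
    ((volume : Measure (E n × E n)).map κ.symm) (volume : Measure (E N))
  refine ⟨_, ENNReal.coe_ne_top (r := Measure.addHaarScalarFactor
    ((volume : Measure (E n × E n)).map κ.symm) (volume : Measure (E N))), fun w hw => ?_⟩
  obtain ⟨i, e, hwe, hd, -, hs⟩ := unif_local h hT hw
  refine ⟨e.source, e.open_source, hwe, fun s h1 s' h2 he => e.injOn h1 h2 ?_,
    fun s h1 => (hs s h1).1, fun S hS hm => ?_⟩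
  · refine hinj i (hs s h1).2.1 (hs s' h2).2.1 ?_
    rw [(hs s h1).2.2.1, (hs s' h2).2.2.1, he]
  have hm' : MeasurableSet (κ ⁻¹' S) := hm.preimage κ.continuous.measurable
  have e1 : volume S = ((volume : Measure (E n × E n)).map κ.symm) (κ ⁻¹' S) := by
    rw [Measure.map_apply κ.symm.continuous.measurable hm', preimage_preimage]
    simp
  have hder : ∀ x ∈ κ ⁻¹' S, HasFDerivWithinAt (fun x => e (κ x))
      (((fderiv ℂ e (κ x)).comp (κ : E N →L[ℂ] E n × E n)).restrictScalars ℝ) (κ ⁻¹' S) x :=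
    fun x hx => (((hd.differentiableAt (e.open_source.mem_nhds (hS hx))).hasFDerivAt.comp x
      κ.hasFDerivAt).restrictScalars ℝ).hasFDerivWithinAt
  have hi : InjOn (fun x => e (κ x)) (κ ⁻¹' S) := fun x hx y hy hxy =>
    κ.injective (e.injOn (hS hx) (hS hy) hxy)
  have him : (fun x => e (κ x)) '' (κ ⁻¹' S) = e '' S := by
    rw [← image_image e κ, image_preimage_eq _ κ.surjective]
  have e2 : Ψ '' S = A.p i '' (e '' S) := by
    rw [image_image]
    exact image_congr fun s h1 => (hs s (hS h1)).2.2.1.symm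
  have e3 : μ (Ψ '' S) = volume (κ ⁻¹' S) := by
    rw [e2, hμ i _ (by rintro _ ⟨s, h1, rfl⟩; exact (hs s (hS h1)).2.1)
      (hm.image_of_continuousOn_injOn (e.continuousOn.mono hS) (e.injOn.mono hS)), ← him,
      lintegral_image_eq_lintegral_abs_det_fderiv_mul volume hm' hder hi,
      ← setLIntegral_one]
    refine setLIntegral_congr_fun hm' fun x hx => ?_
    have k := vol_det ε (fderiv ℂ e (κ x)) ((A.C i).σ_skew _ (hs _ (hS hx)).2.1)
      (hs _ (hS hx)).2.2.2.2.2
    rw [← ofReal_norm, ← ENNReal.ofReal_mul (abs_nonneg _), k, ENNReal.ofReal_one]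
  rw [e1, e3]
  conv_lhs => rw [hH]
  rfl

lemma det_cont (C : Chart N) : ContinuousOn (fun z => (C.σ z).det) C.W := by
  have h1 : ContinuousOn C.σ C.W :=
    continuousOn_pi.2 fun a => continuousOn_pi.2 fun b => (C.σ_hol a b).continuousOn
  exact (continuous_id.matrix_det).comp_continuousOn h1

omit [BorelSpace X] in
lemma vol_finite [CompactSpace X] (hμ : IsVolume A μ) : IsFiniteMeasure μ := by
  refine ⟨(isCompact_univ (X := X)).measure_lt_top_of_nhdsWithin fun x _ => ?_⟩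
  obtain ⟨i, z, hz, rfl⟩ := A.cover x
  obtain ⟨r, hr, hB⟩ := Metric.nhds_basis_closedBall.mem_iff.1 ((A.C i).isOpen.mem_nhds hz)
  have hb : Metric.ball z r ⊆ (A.C i).W := Metric.ball_subset_closedBall.trans hB
  refine ⟨A.p i '' Metric.ball z r, mem_nhdsWithin_of_mem_nhds
    ((A.opn i _ Metric.isOpen_ball hb).mem_nhds ⟨z, Metric.mem_ball_self hr, rfl⟩), ?_⟩
  rw [hμ i _ hb measurableSet_ball]
  have h1 := ((det_cont (A.C i)).mono hB).integrableOn_compact (μ := volume)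
    (isCompact_closedBall z r)
  exact (h1.mono_set Metric.ball_subset_closedBall).2

omit [BorelSpace X] in
lemma vol_pos (hμ : IsVolume A μ) : μ.IsOpenPosMeasure := by
  refine ⟨fun U hU ⟨x, hx⟩ h0 => ?_⟩
  obtain ⟨i, z, hz, rfl⟩ := A.cover x
  have hO : IsOpen ((A.C i).W ∩ A.p i ⁻¹' U) :=
    (A.cont i).isOpen_inter_preimage (A.C i).isOpen hU
  have h1 : μ (A.p i '' ((A.C i).W ∩ A.p i ⁻¹' U)) = 0 :=
    measure_mono_null (by rintro _ ⟨w, hw, rfl⟩; exact hw.2) h0
  rw [hμ i _ inter_subset_left hO.measurableSet, lintegral_eq_zero_iff'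
    (((det_cont (A.C i)).mono inter_subset_left).aemeasurable hO.measurableSet).enorm] at h1
  have h2 : ∀ᵐ w ∂volume.restrict ((A.C i).W ∩ A.p i ⁻¹' U), False := by
    filter_upwards [h1, ae_restrict_mem hO.measurableSet] with w hw hw'
    exact (A.C i).σ_det w hw'.1 (enorm_eq_zero.1 hw)
  rw [eventually_false_iff_eq_bot, ae_eq_bot, Measure.restrict_eq_zero] at h2
  exact (hO.measure_pos volume ⟨z, hz, hx⟩).ne' h2

/-- A measurable fundamental set of finite volume. -/
theorem exists_fund [T2Space X] [IsFiniteMeasure μ] (hN : N = 2 * n)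
    (hinj : ∀ i, InjOn (A.p i) (A.C i).W) (hμ : IsVolume A μ) (h : A.IsUnif T Ψ) (hT : IsOpen T)
    {R : Set (E n × E n)} (hR : MeasurableSet R) (hRT : ∀ w ∈ R, w.1 ∈ T) :
    ∃ S ⊆ R, MeasurableSet S ∧ volume S ≠ ⊤ ∧ ∀ w ∈ R, ∃ w' ∈ S, Ψ w' = Ψ w := by
  classical
  obtain ⟨c, hc, hloc⟩ := vol_local hN hinj hμ h hT
  choose! O hO hw hi hT' hv using hloc
  rcases R.eq_empty_or_nonempty with rfl | hne
  · exact ⟨∅, subset_rfl, MeasurableSet.empty, by simp, fun w hw => hw.elim⟩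
  obtain ⟨s, hsR, hsc, hcov⟩ := TopologicalSpace.countable_cover_nhdsWithin (s := R) (f := O)
    fun w hwR => mem_nhdsWithin_of_mem_nhds ((hO w (hRT w hwR)).mem_nhds (hw w (hRT w hwR)))
  have hsne : s.Nonempty := by
    obtain ⟨w, hwR⟩ := hne
    obtain ⟨a, ha, -⟩ := mem_iUnion₂.1 (hcov hwR)
    exact ⟨a, ha⟩
  obtain ⟨u, rfl⟩ := hsc.exists_eq_range hsne
  have hu : ∀ k, (u k).1 ∈ T := fun k => hRT _ (hsR ⟨k, rfl⟩)
  have hcont : ∀ k, ContinuousOn Ψ (O (u k)) := fun k s hs =>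
    (unif_cont h (hT' _ (hu k) s hs)).continuousWithinAt
  set Y : ℕ → Set X := fun k => Ψ '' (O (u k) ∩ R) with hY
  have hYm : ∀ k, MeasurableSet (Y k) := fun k =>
    ((hO _ (hu k)).measurableSet.inter hR).image_of_continuousOn_injOn
      ((hcont k).mono inter_subset_left) ((hi _ (hu k)).mono inter_subset_left)
  set S : ℕ → Set (E n × E n) := fun k => O (u k) ∩ R ∩ Ψ ⁻¹' disjointed Y k with hS
  have hSm : ∀ k, MeasurableSet (S k) := fun k => by
    have h1 := (hcont k).measurable_piecewise (g := Ψ ∘ fun _ => u k) continuousOn_const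
      (hO _ (hu k)).measurableSet
    have h2 : S k = O (u k) ∩ R ∩ (O (u k)).piecewise Ψ (Ψ ∘ fun _ => u k) ⁻¹' disjointed Y k := by
      ext w
      refine and_congr_right fun hw => ?_
      rw [mem_preimage, mem_preimage, piecewise_eq_of_mem _ _ _ hw.1]
    rw [h2]
    exact ((hO _ (hu k)).measurableSet.inter hR).inter
      ((MeasurableSet.disjointed hYm k).preimage h1)
  refine ⟨⋃ k, S k, iUnion_subset fun k w hw => hw.1.2, MeasurableSet.iUnion hSm, ?_,
    fun w hwR => ?_⟩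
  · refine ne_top_of_le_ne_top (ENNReal.mul_ne_top hc (measure_ne_top μ univ))
      ((measure_iUnion_le _).trans ?_)
    calc ∑' k, volume (S k) ≤ ∑' k, c * μ (disjointed Y k) := by
          refine ENNReal.tsum_le_tsum fun k => ?_
          rw [hv _ (hu k) _ (fun w hw => hw.1.1) (hSm k)]
          gcongr
          rintro _ ⟨w, hw, rfl⟩
          exact hw.2
      _ = c * μ (⋃ k, disjointed Y k) := by
          rw [ENNReal.tsum_mul_left,
            measure_iUnion (disjoint_disjointed Y) (MeasurableSet.disjointed hYm)]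
      _ ≤ c * μ univ := by gcongr; exact subset_univ _
  · obtain ⟨_, ⟨k, rfl⟩, hk⟩ := mem_iUnion₂.1 (hcov hwR)
    have h1 : Ψ w ∈ ⋃ k, disjointed Y k := by
      rw [iUnion_disjointed]
      exact mem_iUnion.2 ⟨k, w, ⟨hk, hwR⟩, rfl⟩
    obtain ⟨l, hl⟩ := mem_iUnion.1 h1
    obtain ⟨w', hw', he⟩ := disjointed_subset Y l hl
    exact ⟨w', mem_iUnion.2 ⟨l, hw', by rw [mem_preimage, he]; exact hl⟩, he⟩

end Pool.Agent.NL
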