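import Pool.Agent.P.MP_c4558b_ag.NLDefs
import Pool.Agent.P.MP_63735c_ag.SPUnif

/-! Holonomy of the uniformizing map. -/

open Set Filter Topology
open scoped ComplexOrder ContDiff Matrix

namespace Pool.Agent.NL

open Pool.Agent.SPF

variable {N n : ℕ} {X : Type} [TopologicalSpace X] {A : Atlas X N}
  {T : Set (E n)} {Ψ : E n × E n → X}

lemma jac_mulVec {M : ℕ} (φ : E M → E N) (z v : E M) : jac φ z *ᵥ v = fderiv ℂ φ z v := by
  have hv : v = ∑ a, v a • (Pi.single a 1 : E M) := by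
    ext b
    simp [Finset.sum_apply, Pi.single_apply]
  conv_rhs => rw [hv, map_sum]
  ext c
  simp [jac, Matrix.mulVec, dotProduct, Finset.sum_apply, mul_comm]

/-- The pointwise properties of a lift. -/
def UP (A : Atlas X N) (i : A.ι) (Ψ : E n × E n → X) (f : E n × E n → E N) (s : E n × E n) :
    Prop :=
  f s ∈ (A.C i).W ∧ A.p i (f s) = Ψ s ∧ Function.Bijective (fderiv ℂ f s) ∧
    (∀ v, v ∈ (A.C i).null (f s) ↔ ∃ τ, fderiv ℂ f s (0, τ) = v) ∧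
    ∀ β τ τ', fderiv ℂ f s (β, τ) ⬝ᵥ (A.C i).σ (f s) *ᵥ fderiv ℂ f s (0, τ') = β ⬝ᵥ τ'

lemma unif_local (h : A.IsUnif T Ψ) (hT : IsOpen T) {w : E n × E n} (hw : w.1 ∈ T) :
    ∃ (i : A.ι) (e : OpenPartialHomeomorph (E n × E n) (E N)), w ∈ e.source ∧
      DifferentiableOn ℂ e e.source ∧ DifferentiableOn ℂ e.symm e.target ∧
      ∀ s ∈ e.source, s.1 ∈ T ∧ UP A i Ψ e s := by
  obtain ⟨i, O, f, hO, hwO, hf, hs⟩ := h w hw
  have eq : ∀ s ∈ O, ∃ D : (E n × E n) ≃L[ℂ] E N, (D : (E n × E n) →L[ℂ] E N) = fderiv ℂ f s :=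
    fun s hs' => ⟨(LinearEquiv.ofBijective (fderiv ℂ f s : (E n × E n) →ₗ[ℂ] E N)
      (hs s hs').2.2.1).toContinuousLinearEquiv, by ext <;> rfl⟩
  obtain ⟨D, hD⟩ := eq w hwO
  have hst : HasStrictFDerivAt f (D : (E n × E n) →L[ℂ] E N) w := by
    rw [hD]
    exact ((flow_smooth hO hf).contDiffAt (hO.mem_nhds hwO)).hasStrictFDerivAt (by simp)
  have hO' : IsOpen (O ∩ Prod.fst ⁻¹' T) := hO.inter (hT.preimage continuous_fst)
  refine ⟨i, (hst.toOpenPartialHomeomorph f).restrOpen _ hO',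
    ⟨hst.mem_toOpenPartialHomeomorph_source, hwO, hw⟩, hf.mono fun s hs' => hs'.2.1,
    fun y hy => ?_, fun s hs' => ⟨hs'.2.2, hs s hs'.2.1⟩⟩
  set e := (hst.toOpenPartialHomeomorph f).restrOpen _ hO'
  have h1 : e.symm y ∈ O := (e.map_target hy).2.1
  obtain ⟨D', hD'⟩ := eq _ h1
  have h2 : HasFDerivAt e (D' : (E n × E n) →L[ℂ] E N) (e.symm y) := by
    rw [hD']
    exact (hf.differentiableAt (hO.mem_nhds h1)).hasFDerivAt
  exact (e.hasFDerivAt_symm hy h2).differentiableAt.differentiableWithinAt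

lemma unif_cont (h : A.IsUnif T Ψ) {w : E n × E n} (hw : w.1 ∈ T) : ContinuousAt Ψ w := by
  obtain ⟨i, O, f, hO, hwO, hf, hs⟩ := h w hw
  have := ((A.cont i).continuousAt ((A.C i).isOpen.mem_nhds (hs w hwO).1)).comp
    (hf.differentiableAt (hO.mem_nhds hwO)).continuousAt
  exact this.congr (Filter.mem_of_superset (hO.mem_nhds hwO) fun s hs' => (hs s hs').2.1)

lemma unif_lift (h : A.IsUnif T Ψ) {b : E n} (hb : b ∈ T) (τ : E n) (M : E n →L[ℂ] E n)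
    (t : E n) : A.Lift (fun v => Ψ (b, τ + M v)) t := by
  obtain ⟨i, O, f, hO, hwO, hf, hs⟩ := h (b, τ + M t) hb
  have hd : Differentiable ℂ fun v : E n => ((b, τ + M v) : E n × E n) := by fun_prop
  refine ⟨i, fun v => f (b, τ + M v), ?_⟩
  filter_upwards [hd.continuous.continuousAt.eventually (hO.mem_nhds hwO)] with v hv
  exact ⟨(hs _ hv).1, (hf.differentiableAt (hO.mem_nhds hv)).comp v (hd v), (hs _ hv).2.1⟩

/-- First order form of the holonomy. -/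
lemma hol_first (h : A.IsUnif T Ψ) (hT : IsOpen T) {w w' : E n × E n} (hw : w.1 ∈ T)
    (hw' : w'.1 ∈ T) (he : Ψ w = Ψ w') :
    ∃ (χ : E n × E n → E n × E n) (V : Set (E n × E n)), IsOpen V ∧ w ∈ V ∧ χ w = w' ∧
      DifferentiableOn ℂ χ V ∧ ∀ s ∈ V, s.1 ∈ T ∧ (χ s).1 ∈ T ∧ Ψ (χ s) = Ψ s ∧
        (∀ v, (fderiv ℂ χ s (0, v)).1 = 0) ∧
        ∀ β v, (fderiv ℂ χ s (β, 0)).1 ⬝ᵥ (fderiv ℂ χ s (0, v)).2 = β ⬝ᵥ v := by
  obtain ⟨i, e, hwe, hd, -, hs⟩ := unif_local h hT hw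
  obtain ⟨j, e', hwe', hd', hdi, hs'⟩ := unif_local h hT hw'
  obtain ⟨O, φ, hφ, hz, hφz, hp⟩ := A.trans i j (e w) (hs w hwe).2.1 (e' w') (hs' w' hwe').2.1
    (by rw [(hs w hwe).2.2.1, (hs' w' hwe').2.2.1, he])
  have o1 : IsOpen (e.source ∩ e ⁻¹' O) := e.isOpen_inter_preimage hφ.isOpen
  have d1 : DifferentiableOn ℂ (φ ∘ e) (e.source ∩ e ⁻¹' O) :=
    hφ.hol.comp (hd.mono inter_subset_left) fun _ hs => hs.2
  have o2 : IsOpen (e.source ∩ e ⁻¹' O ∩ (φ ∘ e) ⁻¹' e'.target) :=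
    d1.continuousOn.isOpen_inter_preimage o1 e'.open_target
  have d2 : DifferentiableOn ℂ (e'.symm ∘ φ ∘ e) (e.source ∩ e ⁻¹' O ∩ (φ ∘ e) ⁻¹' e'.target) :=
    hdi.comp (d1.mono inter_subset_left) fun _ hs => hs.2
  refine ⟨e'.symm ∘ φ ∘ e, _, o2, ⟨⟨hwe, hz⟩, ?_⟩, ?_, d2, fun s hsV => ?_⟩
  · show φ (e w) ∈ e'.target
    rw [hφz]
    exact e'.map_source hwe'
  · show e'.symm (φ (e w)) = w'
    rw [hφz, e'.left_inv hwe']
  set χ := e'.symm ∘ φ ∘ e with hχ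
  have m1 : χ s ∈ e'.source := e'.map_target hsV.2
  have m2 : e' (χ s) = φ (e s) := e'.right_inv hsV.2
  obtain ⟨t1, a1, a2, a3, a4, a5⟩ := hs s hsV.1.1
  obtain ⟨t2, b1, b2, b3, b4, b5⟩ := hs' (χ s) m1
  have hde : DifferentiableAt ℂ e s := hd.differentiableAt (e.open_source.mem_nhds hsV.1.1)
  have key : ∀ u, fderiv ℂ e' (χ s) (fderiv ℂ χ s u) = jac φ (e s) *ᵥ fderiv ℂ e s u := by
    intro u
    have h1 : (e' ∘ χ) =ᶠ[𝓝 s] φ ∘ e :=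
      Filter.mem_of_superset (o2.mem_nhds hsV) fun y hy => e'.right_inv hy.2
    have h2 := fderiv_comp s (hd'.differentiableAt (e'.open_source.mem_nhds m1))
      (d2.differentiableAt (o2.mem_nhds hsV))
    have h3 := fderiv_comp s (hφ.lin3_diff hsV.1.2) hde
    rw [h1.fderiv_eq, h3] at h2
    rw [jac_mulVec]
    exact (congrArg (fun L => L u) h2).symm
  have k1 : ∀ v, (fderiv ℂ χ s (0, v)).1 = 0 := by
    intro v
    have h1 := hφ.null_map hsV.1.2 ((a4 _).2 ⟨v, rfl⟩)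
    rw [← m2, ← key] at h1
    obtain ⟨τ, hτ⟩ := (b4 _).1 h1
    exact (congrArg Prod.fst (b3.1 hτ)).symm
  refine ⟨t1, t2, by rw [← b2, m2, hp _ hsV.1.2, a2], k1, fun β v => ?_⟩
  have h1 : fderiv ℂ χ s (0, v) = (0, (fderiv ℂ χ s (0, v)).2) := Prod.ext (k1 v) rfl
  rw [← a5 β 0 v, ← b5 _ (fderiv ℂ χ s (β, 0)).2 _, ← h1, Prod.mk.eta, key, key, m2,
    hφ.σ_eq _ hsV.1.2, ← Matrix.mulVec_mulVec, ← Matrix.mulVec_mulVec,
    Matrix.dotProduct_mulVec _ (jac φ (e s))ᵀ, Matrix.vecMul_transpose]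

lemma pair_surj {D M : E n →L[ℂ] E n} (h : ∀ β v, D β ⬝ᵥ M v = β ⬝ᵥ v) :
    Function.Surjective D ∧ Function.Surjective M := by
  have h1 : Function.Injective (D : E n →ₗ[ℂ] E n) :=
    (injective_iff_map_eq_zero _).2 fun β hβ => unif_dot fun v => by
      rw [← h, show D β = 0 from hβ, zero_dotProduct]
  have h2 : Function.Injective (M : E n →ₗ[ℂ] E n) :=
    (injective_iff_map_eq_zero _).2 fun v hv => unif_dot fun β => by
      rw [dotProduct_comm, ← h, show M v = 0 from hv, dotProduct_zero]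
  exact ⟨LinearMap.injective_iff_surjective.1 h1, LinearMap.injective_iff_surjective.1 h2⟩

theorem holonomy [T2Space X] (h : A.IsUnif T Ψ) (hT : IsOpen T) {w w' : E n × E n} (hw : w.1 ∈ T)
    (hw' : w'.1 ∈ T) (he : Ψ w = Ψ w') :
    ∃ (χ : E n × E n → E n × E n) (V : Set (E n × E n)), IsOpen V ∧ w ∈ V ∧ χ w = w' ∧
      DifferentiableOn ℂ χ V ∧ ∀ s ∈ V, s.1 ∈ T ∧ (χ s).1 ∈ T ∧ Ψ (χ s) = Ψ s ∧
        ∃ M : E n →L[ℂ] E n, (∀ β v, (fderiv ℂ χ s (β, 0)).1 ⬝ᵥ M v = β ⬝ᵥ v) ∧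
          (∀ v, Ψ (s.1, s.2 + v) = Ψ ((χ s).1, (χ s).2 + M v)) ∧
          ∀ v, (fderiv ℂ χ s (0, v)).1 = 0 := by
  obtain ⟨χ, V, hV, hwV, hχ, hd, hs⟩ := hol_first h hT hw hw' he
  refine ⟨χ, V, hV, hwV, hχ, hd, fun s hsV => ⟨(hs s hsV).1, (hs s hsV).2.1, (hs s hsV).2.2.1, ?_⟩⟩
  obtain ⟨x₀, ξ₀⟩ := s
  obtain ⟨r, hr, hB⟩ := Metric.isOpen_iff.1 hV _ hsV
  have hm : ∀ x ∈ Metric.ball x₀ r, ∀ ξ ∈ Metric.ball ξ₀ r, (x, ξ) ∈ V := fun x hx ξ hξ =>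
    hB (by rw [← ball_prod_same]; exact ⟨hx, hξ⟩)
  have hda : ∀ s ∈ V, DifferentiableAt ℂ χ s := fun s hs => hd.differentiableAt (hV.mem_nhds hs)
  have hR : ∀ x ξ, (x, ξ) ∈ V → HasFDerivAt (fun ξ => χ (x, ξ))
      ((fderiv ℂ χ (x, ξ)).comp (ContinuousLinearMap.inr ℂ (E n) (E n))) ξ := fun x ξ hx =>
    (hda _ hx).hasFDerivAt.comp ξ (hasFDerivAt_prodMk_right x ξ)
  have hL : ∀ x ξ, (x, ξ) ∈ V → HasFDerivAt (fun x => (χ (x, ξ)).1)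
      ((ContinuousLinearMap.fst ℂ (E n) (E n)).comp
        ((fderiv ℂ χ (x, ξ)).comp (ContinuousLinearMap.inl ℂ (E n) (E n)))) x := fun x ξ hx =>
    ((hda _ hx).hasFDerivAt.comp x (hasFDerivAt_prodMk_left x ξ)).fst
  have c1 : ∀ x ∈ Metric.ball x₀ r, ∀ ξ ∈ Metric.ball ξ₀ r, (χ (x, ξ)).1 = (χ (x, ξ₀)).1 := by
    intro x hx ξ hξ
    refine Metric.isOpen_ball.is_const_of_fderiv_eq_zero (𝕜 := ℂ)
      (f := fun ξ => (χ (x, ξ)).1) (convex_ball ξ₀ r).isPreconnected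
      (fun y hy => (hR x y (hm x hx y hy)).fst.differentiableAt.differentiableWithinAt)
      (fun y hy => ?_) hξ (Metric.mem_ball_self hr)
    rw [(hR x y (hm x hx y hy)).fst.fderiv]
    ext1 v
    exact (hs _ (hm x hx y hy)).2.2.2.1 v
  have c2 : ∀ ξ ∈ Metric.ball ξ₀ r, ∀ β,
      (fderiv ℂ χ (x₀, ξ) (β, 0)).1 = (fderiv ℂ χ (x₀, ξ₀) (β, 0)).1 := by
    intro ξ hξ β
    have h1 : (fun x => (χ (x, ξ)).1) =ᶠ[𝓝 x₀] fun x => (χ (x, ξ₀)).1 :=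
      Filter.mem_of_superset (Metric.ball_mem_nhds x₀ hr) fun x hx => c1 x hx ξ hξ
    have h2 := ((hL x₀ ξ₀ hsV).congr_of_eventuallyEq h1).unique
      (hL x₀ ξ (hm _ (Metric.mem_ball_self hr) ξ hξ))
    exact (congrArg (fun L => L β) h2).symm
  set M : E n →L[ℂ] E n := (ContinuousLinearMap.snd ℂ (E n) (E n)).comp
    ((fderiv ℂ χ (x₀, ξ₀)).comp (ContinuousLinearMap.inr ℂ (E n) (E n))) with hM
  set D : E n →L[ℂ] E n := (ContinuousLinearMap.fst ℂ (E n) (E n)).comp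
    ((fderiv ℂ χ (x₀, ξ₀)).comp (ContinuousLinearMap.inl ℂ (E n) (E n))) with hD
  have p0 : ∀ β v, D β ⬝ᵥ M v = β ⬝ᵥ v := (hs _ hsV).2.2.2.2
  have c3 : ∀ ξ ∈ Metric.ball ξ₀ r, ∀ v, (fderiv ℂ χ (x₀, ξ) (0, v)).2 = M v := by
    intro ξ hξ v
    refine sub_eq_zero.1 (unif_dot fun y => ?_)
    obtain ⟨β, rfl⟩ := (pair_surj p0).1 y
    have h1 := (hs _ (hm _ (Metric.mem_ball_self hr) ξ hξ)).2.2.2.2 β v
    rw [c2 ξ hξ β] at h1
    rw [dotProduct_comm, dotProduct_sub, p0]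
    exact sub_eq_zero.2 h1
  have c4 : ∀ ξ ∈ Metric.ball ξ₀ r, (χ (x₀, ξ)).2 - M ξ = (χ (x₀, ξ₀)).2 - M ξ₀ := by
    intro ξ hξ
    have hx := Metric.mem_ball_self (x := x₀) hr
    refine Metric.isOpen_ball.is_const_of_fderiv_eq_zero (𝕜 := ℂ)
      (f := fun ξ => (χ (x₀, ξ)).2 - M ξ) (convex_ball ξ₀ r).isPreconnected
      (fun y hy => ((hR x₀ y (hm _ hx y hy)).snd.sub
        M.hasFDerivAt).differentiableAt.differentiableWithinAt)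
      (fun y hy => ?_) hξ (Metric.mem_ball_self hr)
    rw [((hR x₀ y (hm _ hx y hy)).snd.fun_sub M.hasFDerivAt).fderiv]
    ext1 v
    exact sub_eq_zero.2 (c3 y hy v)
  refine ⟨M, p0, fun v => ?_, (hs _ hsV).2.2.2.1⟩
  have l1 := unif_lift h (hs _ hsV).1 ξ₀ (ContinuousLinearMap.id ℂ (E n))
  have l2 := unif_lift h (hs _ hsV).2.1 (χ (x₀, ξ₀)).2 M
  refine A.lift_ident isOpen_univ isPreconnected_univ (fun t _ => l1 t) (fun t _ => l2 t)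
    (t₀ := 0) (mem_univ _) ?_ (mem_univ v)
  filter_upwards [Metric.ball_mem_nhds (0 : E n) hr] with u hu
  have hξ : ξ₀ + u ∈ Metric.ball ξ₀ r := by simpa using hu
  have hx := Metric.mem_ball_self (x := x₀) hr
  have h1 : χ (x₀, ξ₀ + u) = ((χ (x₀, ξ₀)).1, (χ (x₀, ξ₀)).2 + M u) := by
    refine Prod.ext (c1 _ hx _ hξ) ?_
    have := c4 _ hξ
    rw [map_add] at this
    show (χ (x₀, ξ₀ + u)).2 = (χ (x₀, ξ₀)).2 + M u
    linear_combination (exp := 1) this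
  rw [← h1, (hs _ (hm _ hx _ hξ)).2.2.1]
  rfl

end Pool.Agent.NL
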